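import Pool.Agent.Lib.MP_d51aa1_ag.Cof

set_option autoImplicit false

/-!
# The Fano scheme of 10-planes in the variety of `5 × 5` matrices of rank at most three

The closed points of the Fano scheme are the eleven-dimensional linear spaces of `5 × 5` matrices
of rank at most three.  With the Zariski topology, this space is not connected.
-/

open Matrix Module Pool.Agent.Lib.MP_d51aa1_ag

namespace Pool.Agent.Results.MP_d51aa1_ag.Disconnected

universe u

section defs

variable (K : Type u) [Field K]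

/-- The Zariski topology on the affine space `K^σ`: it is generated by the sets where a
polynomial does not vanish. -/
@[reducible] def zariski (σ : Type) : TopologicalSpace (σ → K) :=
  TopologicalSpace.generateFrom {U | ∃ p : MvPolynomial σ K, U = {x | MvPolynomial.eval x p ≠ 0}}

/-- The points of the Grassmannian of `d`-dimensional linear spaces of `m × n` matrices. -/
def Gr (m n d : ℕ) : Type u :=
  {V : Submodule K (Matrix (Fin m) (Fin n) K) // finrank K V = d}

/-- Linearly independent `d`-tuples of `m × n` matrices (an open subset of an affine space). -/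
def Frame (m n d : ℕ) : Type u :=
  {b : Fin d → Matrix (Fin m) (Fin n) K // LinearIndependent K b}

/-- The linear span of a frame. -/
def Frame.toGr {m n d : ℕ} (b : Frame K m n d) : Gr K m n d :=
  ⟨Submodule.span K (Set.range b.1), by rw [finrank_span_eq_card b.2, Fintype.card_fin]⟩

/-- The Zariski topology on frames (the subspace topology of the affine space of all tuples). -/
instance (m n d : ℕ) : TopologicalSpace (Frame K m n d) :=
  (zariski K (Fin d × Fin m × Fin n)).induced fun b q => b.1 q.1 q.2.1 q.2.2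

/-- The Zariski topology on the Grassmannian: the quotient topology of the space of frames. -/
instance (m n d : ℕ) : TopologicalSpace (Gr K m n d) :=
  TopologicalSpace.coinduced (Frame.toGr K) inferInstance

/-- The set of closed points of the Fano scheme `F_k(D^r_{m,n})`: the `(k+1)`-dimensional linear
spaces of `m × n` matrices all of whose elements have rank less than `r`. -/
def Fano (m n r k : ℕ) : Set (Gr K m n (k + 1)) := {V | ∀ B ∈ V.1, B.rank < r}

end defs

variable {K : Type u} [Field K]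

/-- polynomial functions on affine space -/
def MvFun {σ : Type} (f : (σ → K) → K) : Prop :=
  ∃ p : MvPolynomial σ K, ∀ x, f x = MvPolynomial.eval x p

namespace MvFun

variable {σ : Type}

theorem const (c : K) : MvFun (fun _ : σ → K => c) := ⟨MvPolynomial.C c, by simp⟩

theorem coord (i : σ) : MvFun (fun x : σ → K => x i) := ⟨MvPolynomial.X i, by simp⟩

theorem mul {f g : (σ → K) → K} (hf : MvFun f) (hg : MvFun g) : MvFun (fun x => f x * g x) := by
  obtain ⟨p, hp⟩ := hf
  obtain ⟨q, hq⟩ := hg
  exact ⟨p * q, by simp [hp, hq]⟩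

theorem sub {f g : (σ → K) → K} (hf : MvFun f) (hg : MvFun g) : MvFun (fun x => f x - g x) := by
  obtain ⟨p, hp⟩ := hf
  obtain ⟨q, hq⟩ := hg
  exact ⟨p - q, by simp [hp, hq]⟩

theorem sum {ι : Type} (s : Finset ι) {f : ι → (σ → K) → K} (hf : ∀ i, MvFun (f i)) :
    MvFun (fun x => ∑ i ∈ s, f i x) := by
  choose p hp using hf
  exact ⟨∑ i ∈ s, p i, by simp [hp]⟩

theorem prod {ι : Type} (s : Finset ι) {f : ι → (σ → K) → K} (hf : ∀ i, MvFun (f i)) :
    MvFun (fun x => ∏ i ∈ s, f i x) := by
  choose p hp using hf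
  exact ⟨∏ i ∈ s, p i, by simp [hp]⟩

theorem det {m : ℕ} {A : (σ → K) → Matrix (Fin m) (Fin m) K}
    (hA : ∀ i j, MvFun (fun x => A x i j)) : MvFun (fun x => (A x).det) := by
  simp only [Matrix.det_apply]
  refine MvFun.sum _ fun τ => ?_
  have : ∀ x, Equiv.Perm.sign τ • ∏ i, A x (τ i) i =
      ((Equiv.Perm.sign τ : ℤ) : K) * ∏ i, A x (τ i) i := by
    intro x
    rw [Units.smul_def, zsmul_eq_mul]
  simp only [this]
  exact (MvFun.const _).mul (MvFun.prod _ fun i => hA _ _)

theorem mulVec {l m : ℕ} {A : (σ → K) → Matrix (Fin l) (Fin m) K} (v : Fin m → K)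
    (hA : ∀ i j, MvFun (fun x => A x i j)) (i : Fin l) : MvFun (fun x => (A x *ᵥ v) i) := by
  simp only [Matrix.mulVec, dotProduct]
  exact MvFun.sum _ fun k => (hA i k).mul (MvFun.const _)

theorem vecMul {l m : ℕ} {A : (σ → K) → Matrix (Fin l) (Fin m) K} {v : (σ → K) → Fin l → K}
    (hA : ∀ i j, MvFun (fun x => A x i j)) (hv : ∀ i, MvFun (fun x => v x i)) (j : Fin m) :
    MvFun (fun x => (v x ᵥ* A x) j) := by
  simp only [Matrix.vecMul, dotProduct]
  exact MvFun.sum _ fun k => (hv k).mul (hA k j)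

theorem kv {A : (σ → K) → Matrix (Fin 5) (Fin 5) K} (hA : ∀ i j, MvFun (fun x => A x i j))
    (u : Fin 3 → Fin 5 → K) (a : Fin 5 → K) (i : Fin 5) :
    MvFun (fun x => Pool.Agent.Lib.MP_d51aa1_ag.kv (A x) u a i) := by
  unfold Pool.Agent.Lib.MP_d51aa1_ag.kv cof
  refine (MvFun.const _).mul (MvFun.det fun r s => ?_)
  simp only [Matrix.submatrix_apply, Matrix.of_apply, id]
  refine Fin.cases ?_ (fun r => ?_) r
  · simp only [Matrix.cons_val_zero]
    exact MvFun.const _
  · simp only [Matrix.cons_val_succ]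
    exact MvFun.mulVec _ hA _

end MvFun

/-- sets of points of the Grassmannian defined by polynomial conditions on frames are closed -/
theorem isClosed_of_forall {m n d : ℕ} {S : Set (Gr K m n d)} {ι : Type u}
    (f : ι → (Fin d × Fin m × Fin n → K) → K) (hf : ∀ i, MvFun (f i))
    (hS : ∀ b : Frame K m n d, b.toGr K ∈ S ↔ ∀ i, f i (fun q => b.1 q.1 q.2.1 q.2.2) = 0) :
    IsClosed S := by
  rw [isClosed_coinduced]
  have : Frame.toGr K ⁻¹' S =
      ⋂ i, {b : Frame K m n d | f i (fun q => b.1 q.1 q.2.1 q.2.2) = 0} := by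
    ext b
    rw [Set.mem_preimage, hS, Set.mem_iInter]
    rfl
  rw [this]
  refine isClosed_iInter fun i => ?_
  obtain ⟨p, hp⟩ := hf i
  rw [← isOpen_compl_iff]
  refine (@isOpen_induced_iff _ _ (zariski K (Fin d × Fin m × Fin n)) _ _).mpr
    ⟨{x | MvPolynomial.eval x p ≠ 0}, TopologicalSpace.GenerateOpen.basic _ ⟨p, rfl⟩, ?_⟩
  ext b
  rw [Set.mem_compl_iff]
  exact not_congr (by rw [← hp]; rfl)

/-- a matrix or its transpose -/
def tw (s : Bool) (A : Matrix (Fin 5) (Fin 5) K) : Matrix (Fin 5) (Fin 5) K :=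
  if s then Aᵀ else A

/-- the closed condition -/
def Cond (s : Bool) : Set (Gr K 5 5 11) :=
  {V | ∀ A ∈ V.1, ∀ A' ∈ V.1, ∀ C ∈ V.1, ∀ C' ∈ V.1,
    ∀ (w w' : Fin 3 → Fin 5 → K) (a a' : Fin 5 → K),
      Par (kv (tw s A) w a ᵥ* (tw s C)) (kv (tw s A') w' a' ᵥ* (tw s C'))}

/-- the matrix with coefficients `α` in a frame -/
def comb (s : Bool) (α : Fin 11 → K) (x : Fin 11 × Fin 5 × Fin 5 → K) :
    Matrix (Fin 5) (Fin 5) K :=
  Matrix.of fun i j => ∑ k, α k * (if s then x (k, j, i) else x (k, i, j))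

theorem comb_poly (s : Bool) (α : Fin 11 → K) (i j : Fin 5) :
    MvFun (fun x => comb s α x i j) := by
  unfold comb
  simp only [Matrix.of_apply]
  refine MvFun.sum _ fun k => (MvFun.const _).mul ?_
  cases s
  · simpa using MvFun.coord (k, i, j)
  · simpa using MvFun.coord (k, j, i)

theorem comb_eq (s : Bool) (α : Fin 11 → K) (b : Fin 11 → Matrix (Fin 5) (Fin 5) K) :
    comb s α (fun q => b q.1 q.2.1 q.2.2) = tw s (∑ k, α k • b k) := by
  ext i j
  cases s
  · simp [comb, tw, Matrix.sum_apply]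
  · simp [comb, tw, Matrix.sum_apply, Matrix.transpose_apply]

theorem isClosed_cond (s : Bool) : IsClosed (Cond (K := K) s) := by
  refine isClosed_of_forall (ι := ((Fin 11 → K) × (Fin 11 → K) × (Fin 11 → K) × (Fin 11 → K)) ×
    ((Fin 3 → Fin 5 → K) × (Fin 3 → Fin 5 → K)) × ((Fin 5 → K) × (Fin 5 → K)) × (Fin 5 × Fin 5))
    (fun p x =>
      (kv (comb s p.1.1 x) p.2.1.1 p.2.2.1.1 ᵥ* comb s p.1.2.2.1 x) p.2.2.2.1 *
      (kv (comb s p.1.2.1 x) p.2.1.2 p.2.2.1.2 ᵥ* comb s p.1.2.2.2 x) p.2.2.2.2 -
      (kv (comb s p.1.1 x) p.2.1.1 p.2.2.1.1 ᵥ* comb s p.1.2.2.1 x) p.2.2.2.2 *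
      (kv (comb s p.1.2.1 x) p.2.1.2 p.2.2.1.2 ᵥ* comb s p.1.2.2.2 x) p.2.2.2.1) ?_ ?_
  · rintro ⟨⟨α, α', γ, γ'⟩, ⟨w, w'⟩, ⟨a, a'⟩, ⟨i, j⟩⟩
    dsimp only
    have h1 : ∀ k, MvFun (fun x => (kv (comb s α x) w a ᵥ* comb s γ x) k) := fun k =>
      MvFun.vecMul (comb_poly s γ) (MvFun.kv (comb_poly s α) w a) k
    have h2 : ∀ k, MvFun (fun x => (kv (comb s α' x) w' a' ᵥ* comb s γ' x) k) := fun k =>
      MvFun.vecMul (comb_poly s γ') (MvFun.kv (comb_poly s α') w' a') k
    exact ((h1 i).mul (h2 j)).sub ((h1 j).mul (h2 i))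
  · intro b
    constructor
    · rintro h ⟨⟨α, α', γ, γ'⟩, ⟨w, w'⟩, ⟨a, a'⟩, ⟨i, j⟩⟩
      dsimp only
      rw [comb_eq, comb_eq, comb_eq, comb_eq]
      have hm : ∀ c : Fin 11 → K, ∑ k, c k • b.1 k ∈ Submodule.span K (Set.range b.1) := fun c =>
        Submodule.sum_mem _ fun k _ => Submodule.smul_mem _ _ (Submodule.subset_span ⟨k, rfl⟩)
      exact sub_eq_zero.mpr (h _ (hm α) _ (hm α') _ (hm γ) _ (hm γ') w w' a a' i j)
    · intro h A hA A' hA' C hC C' hC' w w' a a' i j
      obtain ⟨α, rfl⟩ := (Submodule.mem_span_range_iff_exists_fun K).mp hA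
      obtain ⟨α', rfl⟩ := (Submodule.mem_span_range_iff_exists_fun K).mp hA'
      obtain ⟨γ, rfl⟩ := (Submodule.mem_span_range_iff_exists_fun K).mp hC
      obtain ⟨γ', rfl⟩ := (Submodule.mem_span_range_iff_exists_fun K).mp hC'
      have := h ⟨⟨α, α', γ, γ'⟩, ⟨w, w'⟩, ⟨a, a'⟩, ⟨i, j⟩⟩
      dsimp only at this
      rw [comb_eq, comb_eq, comb_eq, comb_eq] at this
      exact sub_eq_zero.mp this

theorem cond_false_iff {V : Gr K 5 5 11} (hr : ∀ B ∈ V.1, B.rank ≤ 3) :
    V ∈ Cond false ↔ JL V.1 := by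
  rw [JL_iff hr]
  rfl

theorem cond_true_iff {V : Gr K 5 5 11} (hr : ∀ B ∈ V.1, B.rank ≤ 3) :
    V ∈ Cond true ↔ JL (tr V.1) := by
  have hr' : ∀ B ∈ tr V.1, B.rank ≤ 3 := by
    intro B hB
    rw [← Matrix.rank_transpose]
    exact hr _ (mem_tr.mp hB)
  rw [JL_iff hr']
  constructor
  · intro h A hA A' hA' C hC C' hC' w w' a a'
    have := h _ (mem_tr.mp hA) _ (mem_tr.mp hA') _ (mem_tr.mp hC) _ (mem_tr.mp hC') w w' a a'
    simpa [tw] using this
  · intro h A hA A' hA' C hC C' hC' w w' a a'
    exact h Aᵀ (mem_tr.mpr (by simpa using hA)) A'ᵀ (mem_tr.mpr (by simpa using hA'))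
      Cᵀ (mem_tr.mpr (by simpa using hC)) C'ᵀ (mem_tr.mpr (by simpa using hC')) w w' a a'

/-! ### A point of the first closed set -/

/-- positions of the entries -/
def pos (k : Fin 11) : Fin 5 × Fin 5 := (⟨k.1 / 5, by omega⟩, ⟨k.1 % 5, by omega⟩)

theorem pos_injective : Function.Injective pos := by decide

/-- a frame of matrices with zero last two rows -/
def exFrame : Fin 11 → Matrix (Fin 5) (Fin 5) K := fun k => Matrix.single (pos k).1 (pos k).2 1

theorem exFrame_li : LinearIndependent K (exFrame (K := K)) := by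
  have h := (Matrix.stdBasis K (Fin 5) (Fin 5)).linearIndependent.comp pos pos_injective
  have e : (exFrame (K := K)) = (Matrix.stdBasis K (Fin 5) (Fin 5)) ∘ pos := by
    funext k
    rw [Function.comp_apply, exFrame]
    exact (Matrix.stdBasis_eq_single K (pos k).1 (pos k).2).symm
  rw [e]
  exact h

/-- the space of matrices with zero last two rows (and more zeros) -/
def exSpace : Submodule K (Matrix (Fin 5) (Fin 5) K) :=
  Submodule.span K (Set.range (exFrame (K := K)))

theorem finrank_exSpace : finrank K (exSpace (K := K)) = 11 := by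
  rw [exSpace, finrank_span_eq_card exFrame_li, Fintype.card_fin]

theorem exSpace_rows {B : Matrix (Fin 5) (Fin 5) K} (hB : B ∈ exSpace (K := K)) (i j : Fin 5)
    (hi : 3 ≤ i.1) : B i j = 0 := by
  let W : Submodule K (Matrix (Fin 5) (Fin 5) K) :=
    { carrier := {B | ∀ i j : Fin 5, 3 ≤ i.1 → B i j = 0}
      add_mem' := by
        intro A B hA hB i j h
        rw [Matrix.add_apply, hA i j h, hB i j h, add_zero]
      zero_mem' := fun _ _ _ => rfl
      smul_mem' := by
        intro c A hA i j h
        rw [Matrix.smul_apply, hA i j h, smul_zero] }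
  have hle : exSpace (K := K) ≤ W := by
    rw [exSpace, Submodule.span_le]
    rintro _ ⟨k, rfl⟩ i j h
    rw [exFrame, Matrix.single_apply_of_row_ne]
    intro h'
    have : (pos k).1.1 < 3 := by
      simp only [pos]
      omega
    rw [h'] at this
    omega
  exact hle hB i j hi

theorem exSpace_rank {B : Matrix (Fin 5) (Fin 5) K} (hB : B ∈ exSpace (K := K)) : B.rank ≤ 3 := by
  have h := Matrix.rank_le_card_of_support_subset B (s := {0, 1, 2}) (by
    intro i hi
    by_contra hcon
    apply hi
    ext j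
    apply exSpace_rows hB i j
    fin_cases i <;> simp_all)
  exact h

theorem exSpace_JL : JL (exSpace (K := K)) := by
  intro A hA A' hA' hAr hAr' v v' hv hv' C hC C' hC'
  -- `v` vanishes on the first three coordinates
  have key : ∀ i : Fin 5, i.1 < 3 → v i = 0 := by
    by_contra hcon
    push Not at hcon
    obtain ⟨i₀, hi₀, hne⟩ := hcon
    set N : Matrix (Fin 3) (Fin 5) K := A.submatrix (Fin.castLE (by omega)) id with hN
    have h1 : (Matrix.of fun (_ : Unit) (j : Fin 3) => v (Fin.castLE (by omega) j)) * N = 0 := by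
      ext i j
      have h := congrFun hv j
      simp only [vecMul, dotProduct, Fin.sum_univ_five, Pi.zero_apply] at h
      rw [exSpace_rows hA 3 j (by decide), exSpace_rows hA 4 j (by decide)] at h
      simp only [Matrix.mul_apply, Matrix.of_apply, hN, Matrix.submatrix_apply,
        Fin.sum_univ_three, Matrix.zero_apply, id]
      simpa using h
    have h2 := Matrix.rank_add_rank_le_card_of_mul_eq_zero h1
    have h3 : (Matrix.of fun (_ : Unit) (j : Fin 3) =>
        v (Fin.castLE (by omega : 3 ≤ 5) j)).rank = 1 := by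
      have : LinearIndependent K (Matrix.of fun (_ : Unit) (j : Fin 3) =>
          v (Fin.castLE (by omega : 3 ≤ 5) j)).row := by
        apply LinearIndependent.of_subsingleton ()
        intro h
        exact hne (congrFun h ⟨i₀.1, hi₀⟩)
      rw [this.rank_matrix]; simp
    have h4 : A.rank ≤ N.rank := by
      have : A = (Matrix.of fun (i : Fin 5) (j : Fin 3) =>
          if i.1 = j.1 then (1 : K) else 0) * N := by
        ext i j
        simp only [Matrix.mul_apply, Matrix.of_apply, hN, Matrix.submatrix_apply, id,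
          Fin.sum_univ_three]
        by_cases hi : 3 ≤ i.1
        · rw [exSpace_rows hA i j hi]
          have : i.1 ≠ 0 := by omega
          have : i.1 ≠ 1 := by omega
          have : i.1 ≠ 2 := by omega
          simp [*]
        · have : i = 0 ∨ i = 1 ∨ i = 2 := by
            rcases i with ⟨i, hi'⟩
            simp only [Fin.ext_iff] at *
            simp at *
            omega
          rcases this with rfl | rfl | rfl <;> simp
      rw [this]
      exact Matrix.rank_mul_le_right _ _
    rw [h3] at h2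
    simp only [Fintype.card_fin] at h2
    omega
  have hvC : v ᵥ* C = 0 := by
    ext j
    simp only [vecMul, dotProduct, Fin.sum_univ_five, Pi.zero_apply]
    rw [exSpace_rows hC 3 j (by decide), exSpace_rows hC 4 j (by decide),
      key 0 (by decide), key 1 (by decide), key 2 (by decide)]
    simp
  rw [hvC]
  exact Par.zero_left _

/-- The Fano scheme of 10-planes in the variety of `5 × 5` matrices of rank at most three is
not connected. -/
theorem result (K : Type u) [Field K] [IsAlgClosed K] : ¬ IsPreconnected (Fano K 5 5 4 10) := by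
  intro hcon
  have : Infinite K := IsAlgClosed.instInfinite
  rw [isPreconnected_closed_iff] at hcon
  have hrank : ∀ V ∈ Fano K 5 5 4 10, ∀ B ∈ V.1, B.rank ≤ 3 := by
    intro V hV B hB
    have := hV B hB
    omega
  have h := hcon (Cond false) (Cond true) (isClosed_cond false) (isClosed_cond true) ?_ ?_ ?_
  · obtain ⟨V, hV, hV0, hV1⟩ := h
    exact disjoint5 V.1 (hrank V hV) V.2 ((cond_false_iff (hrank V hV)).mp hV0)
      ((cond_true_iff (hrank V hV)).mp hV1)
  · intro V hV
    rcases dichotomy5 V.1 (hrank V hV) V.2 with h | h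
    · exact Or.inl ((cond_false_iff (hrank V hV)).mpr h)
    · exact Or.inr ((cond_true_iff (hrank V hV)).mpr h)
  · have hV : ∀ B ∈ exSpace (K := K), B.rank < 4 := fun B hB => by
      have := exSpace_rank hB
      omega
    exact ⟨⟨exSpace, finrank_exSpace⟩, hV,
      (cond_false_iff (V := ⟨exSpace, finrank_exSpace⟩) (fun B hB => exSpace_rank hB)).mpr
        exSpace_JL⟩
  · have hr : ∀ B ∈ tr (exSpace (K := K)), B.rank ≤ 3 := fun B hB => by
      rw [← Matrix.rank_transpose]
      exact exSpace_rank (mem_tr.mp hB)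
    have hV : ∀ B ∈ tr (exSpace (K := K)), B.rank < 4 := fun B hB => by
      have := hr B hB
      omega
    have hf : finrank K (tr (exSpace (K := K))) = 11 := by
      rw [finrank_tr, finrank_exSpace]
    refine ⟨⟨tr exSpace, hf⟩, hV, (cond_true_iff (V := ⟨tr exSpace, hf⟩) hr).mpr ?_⟩
    change JL (tr (tr exSpace))
    rw [tr_tr]
    exact exSpace_JL

end Pool.Agent.Results.MP_d51aa1_ag.Disconnected
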